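import Pool.Agent.Helper36.GapSets

/-!
# Intersections of unions of arithmetic progressions and gap sets
-/

set_option autoImplicit false

namespace Pool.Agent.Helper33.GC

open Pool.Agent.Helper36

lemma Gap.mono {A B : Set ℕ} (h : Gap B) (hAB : A ⊆ B) : Gap A := by
  obtain ⟨c, hc⟩ := h
  exact ⟨c, fun n hn m hm hnm => hc n (hAB hn) m (hAB hm) hnm⟩

/-- a finite union of arithmetic progressions is, up to finitely many exceptions, closed under
adding multiples of a suitable number -/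
lemma APSet_evClosed (T : Finset (ℕ × ℕ)) :
    ∃ k : ℕ, 0 < k ∧ ∀ l : ℕ, {n ∈ APSet T | n + k * l ∉ APSet T}.Finite := by
  classical
  refine ⟨∏ p ∈ T, (if p.1 = 0 then 1 else p.1), ?_, fun l => ?_⟩
  · refine Finset.prod_pos fun p _ => ?_
    split_ifs with h
    · exact Nat.one_pos
    · exact Nat.pos_of_ne_zero h
  · refine (T.image Prod.snd).finite_toSet.subset ?_
    rintro n ⟨⟨p, hp, m, rfl⟩, hn⟩
    rw [Finset.mem_coe, Finset.mem_image]
    refine ⟨p, hp, ?_⟩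
    by_cases h0 : p.1 = 0
    · rw [h0, zero_mul, zero_add]
    · exfalso
      apply hn
      have hdvd : p.1 ∣ ∏ p ∈ T, (if p.1 = 0 then 1 else p.1) := by
        have := Finset.dvd_prod_of_mem (fun p : ℕ × ℕ => if p.1 = 0 then 1 else p.1) hp
        simpa [h0] using this
      obtain ⟨c, hc⟩ := hdvd
      refine ⟨p, hp, m + c * l, ?_⟩
      rw [hc]
      ring

lemma APSet_inter (T T' : Finset (ℕ × ℕ)) : ∃ U, APSet T ∩ APSet T' = APSet U := by
  obtain ⟨k, hk, h⟩ := APSet_evClosed T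
  obtain ⟨k', hk', h'⟩ := APSet_evClosed T'
  apply APSet_of_evClosed (k := k * k') (Nat.mul_pos hk hk')
  refine ((h k').union (h' k)).subset ?_
  rintro n ⟨⟨h1, h2⟩, h3⟩
  by_cases h4 : n + k * k' ∈ APSet T
  · right
    refine ⟨h2, fun h5 => h3 ⟨h4, ?_⟩⟩
    rwa [mul_comm k k']
  · left
    exact ⟨h1, h4⟩

lemma Good.inter {A B : Set ℕ} (hA : Good A) (hB : Good B) : Good (A ∩ B) := by
  classical
  obtain ⟨T, r, L, hL, rfl⟩ := hA
  obtain ⟨T', r', L', hL', rfl⟩ := hB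
  have h1 : (APSet T ∪ ⋃ i, L i) ∩ (APSet T' ∪ ⋃ i, L' i) =
      ((APSet T ∩ APSet T') ∪ (⋃ i ∈ (Finset.univ : Finset (Fin r)),
        L i ∩ (APSet T' ∪ ⋃ i, L' i))) ∪
        (⋃ i ∈ (Finset.univ : Finset (Fin r')), (APSet T ∪ ⋃ i, L i) ∩ L' i) := by
    ext n
    simp only [Set.mem_inter_iff, Set.mem_union, Set.mem_iUnion, Finset.mem_univ, exists_prop,
      true_and]
    constructor
    · rintro ⟨h1 | ⟨i, hi⟩, h2 | ⟨j, hj⟩⟩
      · exact Or.inl (Or.inl ⟨h1, h2⟩)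
      · exact Or.inr ⟨j, Or.inl h1, hj⟩
      · exact Or.inl (Or.inr ⟨i, hi, Or.inl h2⟩)
      · exact Or.inl (Or.inr ⟨i, hi, Or.inr ⟨j, hj⟩⟩)
    · rintro ((⟨h1, h2⟩ | ⟨i, hi, h⟩) | ⟨j, h, hj⟩)
      · exact ⟨Or.inl h1, Or.inl h2⟩
      · exact ⟨Or.inr ⟨i, hi⟩, h⟩
      · exact ⟨h, Or.inr ⟨j, hj⟩⟩
  rw [h1]
  refine Good.union (Good.union (Good.of_AP (APSet_inter T T')) ?_) ?_
  · exact Good.biUnion _ _ fun i _ => Good.of_gap (Gap.mono (hL i) Set.inter_subset_left)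
  · exact Good.biUnion _ _ fun i _ => Good.of_gap (Gap.mono (hL' i) Set.inter_subset_right)

lemma Good.biInter {α : Type*} (s : Finset α) (A : α → Set ℕ) (h : ∀ i ∈ s, Good (A i)) :
    Good (⋂ i ∈ s, A i) := by
  classical
  induction s using Finset.induction_on with
  | empty =>
    obtain ⟨T, hT⟩ := APSet_univ
    refine Good.of_AP ⟨T, ?_⟩
    rw [← hT]
    simp
  | insert a s ha ih =>
    rw [Finset.set_biInter_insert]
    exact Good.inter (h a (Finset.mem_insert_self _ _))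
      (ih fun i hi => h i (Finset.mem_insert_of_mem hi))

end Pool.Agent.Helper33.GC
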