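import Pool.Agent.Helper16.FF8

/-!
# Heights on a function field of one variable
-/

set_option autoImplicit false
set_option linter.style.haveILetI false

namespace Pool.Agent.Helper33.GC

open Pool.Agent.Helper16 Height Function

variable {K N : Type} [Field K] [Field N] [Algebra K N]

/-- a set of places containing all zeros and poles of finitely many elements is finite -/
lemma exists_finset_places (hN : IsFunctionField K N) (X : Finset N) :
    ∃ S : Finset (Place K N), ∀ v, v ∉ S → ∀ x ∈ X, x ≠ 0 → v.val x = 1 := by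
  classical
  choose S hS _ using fun f : N => hN.product_formula f
  refine ⟨X.biUnion S, fun v hv x hx hx0 => ?_⟩
  rw [Finset.mem_biUnion] at hv
  push Not at hv
  have h1 := hv x hx
  rw [hS, not_not] at h1
  exact (v.ord_eq_zero_iff hx0).1 h1

open Classical in
/-- the real absolute value attached to a place -/
noncomputable def absOf (v : Place K N) : AbsoluteValue N ℝ where
  toFun x := if x = 0 then 0 else Real.exp (-((v.ord x : ℝ) * (v.deg : ℝ)))
  map_mul' x y := by
    by_cases hx : x = 0
    · simp [hx]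
    by_cases hy : y = 0
    · simp [hy]
    simp only [mul_eq_zero, hx, hy, or_self, if_false]
    rw [← Real.exp_add, v.ord_mul hx hy]
    push_cast
    congr 1
    ring
  nonneg' x := by
    change (0 : ℝ) ≤ if x = 0 then 0 else Real.exp (-((v.ord x : ℝ) * (v.deg : ℝ)))
    split_ifs
    · exact le_refl _
    · exact (Real.exp_pos _).le
  eq_zero' x := by
    change (if x = 0 then (0 : ℝ) else Real.exp (-((v.ord x : ℝ) * (v.deg : ℝ)))) = 0 ↔ x = 0
    split_ifs with h
    · simp [h]
    · simp [h, Real.exp_ne_zero]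
  add_le' x y := by
    change (if x + y = 0 then (0 : ℝ) else Real.exp (-((v.ord (x + y) : ℝ) * (v.deg : ℝ)))) ≤
      (if x = 0 then (0 : ℝ) else Real.exp (-((v.ord x : ℝ) * (v.deg : ℝ)))) +
      (if y = 0 then (0 : ℝ) else Real.exp (-((v.ord y : ℝ) * (v.deg : ℝ))))
    by_cases hx : x = 0
    · simp [hx]
    by_cases hy : y = 0
    · simp [hy]
    by_cases hxy : x + y = 0
    · rw [if_pos hxy]
      split_ifs
      exact add_nonneg (Real.exp_pos _).le (Real.exp_pos _).le
    · rw [if_neg hxy, if_neg hx, if_neg hy]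
      have h1 : min (v.ord x) (v.ord y) ≤ v.ord (x + y) := by
        unfold Place.ord
        have h2 := v.val.map_add x y
        have hx' : v.val x ≠ 0 := by simpa using hx
        have hy' : v.val y ≠ 0 := by simpa using hy
        have hxy' : v.val (x + y) ≠ 0 := by simpa using hxy
        rcases le_max_iff.1 h2 with h | h
        · have := (WithZero.log_le_log hxy' hx').2 h
          omega
        · have := (WithZero.log_le_log hxy' hy').2 h
          omega
      rcases min_le_iff.1 h1 with h | h
      · refine le_add_of_le_of_nonneg ?_ (Real.exp_pos _).le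
        apply Real.exp_le_exp.2
        have : (v.ord x : ℝ) ≤ v.ord (x + y) := by exact_mod_cast h
        nlinarith [(Nat.cast_nonneg v.deg : (0 : ℝ) ≤ v.deg)]
      · refine le_add_of_nonneg_of_le (Real.exp_pos _).le ?_
        apply Real.exp_le_exp.2
        have : (v.ord y : ℝ) ≤ v.ord (x + y) := by exact_mod_cast h
        nlinarith [(Nat.cast_nonneg v.deg : (0 : ℝ) ≤ v.deg)]

lemma absOf_of_ne (v : Place K N) {x : N} (hx : x ≠ 0) :
    absOf v x = Real.exp (-((v.ord x : ℝ) * (v.deg : ℝ))) := if_neg hx

lemma isNonarchimedean_absOf (v : Place K N) : IsNonarchimedean (absOf v) := by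
  intro x y
  by_cases hx : x = 0
  · subst hx
    rw [zero_add]
    exact le_max_right _ _
  by_cases hy : y = 0
  · subst hy
    rw [add_zero]
    exact le_max_left _ _
  by_cases hxy : x + y = 0
  · rw [hxy, map_zero]
    exact le_max_of_le_left ((absOf v).nonneg x)
  · rw [absOf_of_ne v hx, absOf_of_ne v hy, absOf_of_ne v hxy]
    have h2 := v.val.map_add x y
    have hx' : v.val x ≠ 0 := by simpa using hx
    have hy' : v.val y ≠ 0 := by simpa using hy
    have hxy' : v.val (x + y) ≠ 0 := by simpa using hxy
    rcases le_max_iff.1 h2 with h | h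
    · refine le_max_of_le_left (Real.exp_le_exp.2 ?_)
      have h3 := (WithZero.log_le_log hxy' hx').2 h
      have h4 : v.ord x ≤ v.ord (x + y) := by unfold Place.ord; omega
      have : (v.ord x : ℝ) ≤ v.ord (x + y) := by exact_mod_cast h4
      nlinarith [(Nat.cast_nonneg v.deg : (0 : ℝ) ≤ v.deg)]
    · refine le_max_of_le_right (Real.exp_le_exp.2 ?_)
      have h3 := (WithZero.log_le_log hxy' hy').2 h
      have h4 : v.ord y ≤ v.ord (x + y) := by unfold Place.ord; omega
      have : (v.ord y : ℝ) ≤ v.ord (x + y) := by exact_mod_cast h4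
      nlinarith [(Nat.cast_nonneg v.deg : (0 : ℝ) ≤ v.deg)]

lemma absOf_eq_one (v : Place K N) {x : N} (hx : x ≠ 0) (h : v.val x = 1) : absOf v x = 1 := by
  rw [absOf_of_ne v hx, (v.ord_eq_zero_iff hx).2 h]
  simp

lemma absOf_eq_one' (v : Place K N) {x : N} (h : v.val x = 1) : absOf v x = 1 := by
  apply absOf_eq_one v _ h
  rintro rfl
  rw [map_zero] at h
  exact zero_ne_one h

lemma absOf_le_one (v : Place K N) {x : N} (h : v.val x ≤ 1) : absOf v x ≤ 1 := by
  by_cases hx : x = 0
  · rw [hx, map_zero]; exact zero_le_one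
  rw [absOf_of_ne v hx]
  have h1 := (v.ord_nonneg_iff hx).2 h
  have h2 : (0 : ℝ) ≤ v.ord x := by exact_mod_cast h1
  rw [← Real.exp_zero]
  apply Real.exp_le_exp.2
  nlinarith [(Nat.cast_nonneg v.deg : (0 : ℝ) ≤ v.deg)]

lemma absOf_le_of_lt (hN : IsFunctionField K N) (v : Place K N) {x : N} (h : v.val x < 1) :
    absOf v x ≤ Real.exp (-1) := by
  by_cases hx : x = 0
  · rw [hx, map_zero]; exact (Real.exp_pos _).le
  rw [absOf_of_ne v hx]
  have h1 := (v.ord_pos_iff hx).2 h
  have h2 : (1 : ℝ) ≤ v.ord x := by exact_mod_cast h1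
  have h3 : (1 : ℝ) ≤ v.deg := by exact_mod_cast v.deg_pos hN
  apply Real.exp_le_exp.2
  nlinarith

lemma one_lt_absOf (hN : IsFunctionField K N) (v : Place K N) {x : N} (h : 1 < v.val x) :
    1 < absOf v x := by
  have hx : x ≠ 0 := by
    rintro rfl
    rw [map_zero] at h
    exact not_lt_zero h
  rw [absOf_of_ne v hx]
  have h1 := (v.ord_neg_iff hx).2 h
  have h2 : (v.ord x : ℝ) < 0 := by exact_mod_cast h1
  have h3 : (1 : ℝ) ≤ v.deg := by exact_mod_cast v.deg_pos hN
  rw [← Real.exp_zero]
  apply Real.exp_lt_exp.2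
  nlinarith

lemma absOf_injective (hN : IsFunctionField K N) :
    Function.Injective (absOf : Place K N → AbsoluteValue N ℝ) := by
  intro v w h
  apply Place.ext_val
  apply valuation_eq_of_le _ _ v.surj w.surj
  intro x hx
  by_contra hlt
  rw [not_le] at hlt
  have h1 := one_lt_absOf hN v hlt
  rw [h] at h1
  exact absurd (absOf_le_one w hx) (not_le.2 h1)

/-- the places at which `t` is regular -/
abbrev FinPl (K : Type) {N : Type} [Field K] [Field N] [Algebra K N] (t : N) : Type :=
  {v : Place K N // v.val t ≤ 1}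

lemma finite_poles (hN : IsFunctionField K N) (t : N) : {v : Place K N | ¬ v.val t ≤ 1}.Finite := by
  obtain ⟨S, hS, -⟩ := hN.product_formula t
  refine S.finite_toSet.subset fun v hv => ?_
  rw [Finset.mem_coe, hS]
  have hv' : 1 < v.val t := not_le.1 hv
  have ht : t ≠ 0 := by
    rintro rfl
    rw [map_zero] at hv'
    exact not_lt_zero hv'
  have := (v.ord_neg_iff ht).2 hv'
  omega

/-- the poles of `t` -/
noncomputable def poles (hN : IsFunctionField K N) (t : N) : Finset (Place K N) :=
  (finite_poles hN t).toFinset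

lemma mem_poles (hN : IsFunctionField K N) (t : N) (v : Place K N) :
    v ∈ poles hN t ↔ ¬ v.val t ≤ 1 := by
  rw [poles, Set.Finite.mem_toFinset, Set.mem_ofPred_eq]

/-- the (normalised) absolute values of a function field of one variable; those at the poles of
`t` are called archimedean -/
@[reducible] noncomputable def admissible (hN : IsFunctionField K N) (t : N) : AdmissibleAbsValues N where
  archAbsVal := (poles hN t).val.map absOf
  nonarchAbsVal := Set.range fun v : FinPl K t => absOf v.1
  isNonarchimedean := by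
    rintro _ ⟨v, rfl⟩
    exact isNonarchimedean_absOf v.1
  hasFiniteMulSupport := by
    intro x hx
    obtain ⟨S, hS, -⟩ := hN.product_formula x
    have h1 : (Set.range fun v : FinPl K t => absOf v.1) ⊆ Set.univ := Set.subset_univ _
    refine Set.Finite.of_injOn (f := fun φ : (Set.range fun v : FinPl K t => absOf v.1) => φ.1)
      (t := absOf '' (S : Set (Place K N))) ?_ Subtype.val_injective.injOn
      (S.finite_toSet.image _)
    rintro ⟨_, v, rfl⟩ hφ
    refine ⟨v.1, ?_, rfl⟩
    rw [Finset.mem_coe, hS]
    intro h0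
    apply hφ
    exact absOf_eq_one v.1 hx ((v.1.ord_eq_zero_iff hx).1 h0)
  product_formula := by
    classical
    intro x hx
    obtain ⟨S, hS, hsum⟩ := hN.product_formula x
    have h1 : (((poles hN t).val.map absOf).map (· x)).prod = ∏ v ∈ poles hN t, absOf v x := by
      rw [Multiset.map_map]
      rfl
    have h2 : ∏ᶠ φ : (Set.range fun v : FinPl K t => absOf v.1), φ.1 x =
        ∏ᶠ v : FinPl K t, absOf v.1 x := by
      symm
      apply finprod_eq_of_bijective
        (Set.rangeFactorization fun v : FinPl K t => absOf v.1)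
      · refine ⟨?_, Set.rangeFactorization_surjective⟩
        intro v w h
        have h3 := congrArg Subtype.val h
        exact Subtype.ext (absOf_injective hN h3)
      · intro v
        rfl
    have h3 : ∏ᶠ v : FinPl K t, absOf v.1 x = ∏ v ∈ S with v.val t ≤ 1, absOf v x := by
      have h4 : ∏ᶠ v : FinPl K t, absOf v.1 x =
          ∏ᶠ (v : Place K N) (_ : v ∈ {v : Place K N | v.val t ≤ 1}), absOf v x :=
        finprod_set_coe_eq_finprod_mem (f := fun v : Place K N => absOf v x)
          {v : Place K N | v.val t ≤ 1}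
      rw [h4]
      apply finprod_mem_eq_prod_of_inter_mulSupport_eq
      ext v
      simp only [Set.mem_inter_iff, Set.mem_ofPred_eq, mem_mulSupport, Finset.coe_filter]
      constructor
      · rintro ⟨h5, h6⟩
        refine ⟨⟨?_, h5⟩, h6⟩
        rw [hS]
        intro h0
        exact h6 (absOf_eq_one v hx ((v.ord_eq_zero_iff hx).1 h0))
      · rintro ⟨⟨_, h5⟩, h6⟩
        exact ⟨h5, h6⟩
    have h4 : ∏ v ∈ poles hN t, absOf v x = ∏ v ∈ S with ¬ v.val t ≤ 1, absOf v x := by
      symm
      apply Finset.prod_subset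
      · intro v hv
        rw [Finset.mem_filter] at hv
        exact (mem_poles hN t v).2 hv.2
      · intro v hv hv'
        rw [Finset.mem_filter, not_and_or] at hv'
        have h5 := hv'.resolve_right (not_not.2 ((mem_poles hN t v).1 hv))
        rw [hS, not_not] at h5
        exact absOf_eq_one v hx ((v.ord_eq_zero_iff hx).1 h5)
    change (((poles hN t).val.map absOf).map (· x)).prod *
      ∏ᶠ φ : (Set.range fun v : FinPl K t => absOf v.1), φ.1 x = 1
    rw [h1, h2, h3, h4, mul_comm, Finset.prod_filter_mul_prod_filter_not]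
    rw [Finset.prod_congr rfl fun v _ => absOf_of_ne v hx, ← Real.exp_sum, Finset.sum_neg_distrib]
    have h5 : ∑ v ∈ S, (v.ord x : ℝ) * (v.deg : ℝ) = 0 := by exact_mod_cast hsum
    rw [h5, neg_zero, Real.exp_zero]

/-- there are infinitely many places at which `t` is regular -/
lemma exists_places [CharZero K] (hN : IsFunctionField K N) (t : N) (ht : Transcendental K t)
    (B : Finset (Place K N)) (M : ℕ) :
    ∃ W : Finset (FinPl K t), W.card = M ∧ ∀ w ∈ W, w.1 ∉ B := by
  classical
  have h1 : ∀ n : ℕ, ∃ v : Place K N, v.val (t - algebraMap K N (n : K)) < 1 := by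
    intro n
    have htr : Transcendental K (t - algebraMap K N (n : K)) := by
      intro h
      apply ht
      have := h.add (isAlgebraic_algebraMap (A := N) (n : K))
      rwa [sub_add_cancel] at this
    obtain ⟨S, hS, hsum, hpos⟩ := hN.zeros _ htr
    have hne : S.Nonempty := by
      rw [Finset.nonempty_iff_ne_empty]
      rintro rfl
      rw [Finset.sum_empty] at hsum
      omega
    obtain ⟨v, hv⟩ := hne
    exact ⟨v, (hS v).1 hv⟩
  choose v hv using h1
  have hreg : ∀ n, (v n).val t ≤ 1 := by
    intro n
    have h2 : t = (t - algebraMap K N (n : K)) + algebraMap K N (n : K) := by ring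
    rw [h2]
    refine ((v n).val.map_add _ _).trans (max_le (hv n).le ((v n).val_algebraMap_le _))
  have hinj : Function.Injective (fun n : ℕ => (⟨v n, hreg n⟩ : FinPl K t)) := by
    intro n m h
    have h2 : v n = v m := congrArg Subtype.val h
    by_contra hne
    have h3 : ((n : K) - (m : K)) ≠ 0 := by
      rw [sub_ne_zero]
      exact_mod_cast hne
    have h4 := (v n).triv _ h3
    have h5 : algebraMap K N ((n : K) - (m : K)) =
        (t - algebraMap K N (m : K)) + -(t - algebraMap K N (n : K)) := by
      rw [map_sub]; ring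
    have h6 : (v n).val (algebraMap K N ((n : K) - (m : K))) < 1 := by
      rw [h5]
      apply (v n).val.map_add_lt
      · rw [h2]; exact hv m
      · rw [Valuation.map_neg]; exact hv n
    rw [h4] at h6
    exact lt_irrefl _ h6
  have hinf : (Set.range (fun n : ℕ => (⟨v n, hreg n⟩ : FinPl K t)) \
      {w : FinPl K t | w.1 ∈ B}).Infinite := by
    apply (Set.infinite_range_of_injective hinj).sdiff
    exact Set.Finite.preimage (Subtype.val_injective.injOn) B.finite_toSet
  obtain ⟨W, hW1, hW2⟩ := hinf.exists_subset_card_eq M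
  exact ⟨W, hW2, fun w hw => (hW1 hw).2⟩

lemma prod_le_finprod {α : Type*} (f : α → ℝ) (hf : f.HasFiniteMulSupport) (h1 : ∀ a, 1 ≤ f a)
    (s : Finset α) : ∏ a ∈ s, f a ≤ ∏ᶠ a, f a := by
  classical
  have hf' : (Function.mulSupport f).Finite := hf
  rw [finprod_eq_prod_of_mulSupport_subset f (s := s ∪ hf'.toFinset) (by
    intro a ha
    rw [Finset.coe_union, Set.Finite.coe_toFinset]
    exact Or.inr ha)]
  exact Finset.prod_le_prod_of_subset_of_one_le Finset.subset_union_left
    (fun a _ => (zero_le_one.trans (h1 a))) fun a _ _ => h1 a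

/-- a lower bound for the height -/
lemma card_le_logHeight (hN : IsFunctionField K N) (t : N) {ι : Type} [Fintype ι] (y : ι → N)
    (i₀ : ι) (hy : y i₀ ≠ 0) (W : Finset (FinPl K t))
    (hW : ∀ w ∈ W, ∃ j, absOf w.1 (y i₀) * Real.exp 1 ≤ absOf w.1 (y j)) :
    (W.card : ℝ) ≤ @logHeight N _ (admissible hN t) ι y := by
  classical
  letI := admissible hN t
  set z : ι → N := (y i₀)⁻¹ • y with hz
  have hz0 : z i₀ = 1 := by
    rw [hz, Pi.smul_apply, smul_eq_mul, inv_mul_cancel₀ hy]
  have hzne : z ≠ 0 := by
    intro h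
    have := congrFun h i₀
    rw [hz0] at this
    exact one_ne_zero this
  have h1 : logHeight y = logHeight z := by
    rw [logHeight_eq_log_mulHeight, logHeight_eq_log_mulHeight, hz,
      mulHeight_smul_eq_mulHeight _ (inv_ne_zero hy)]
  have hle : ∀ φ : AbsoluteValue N ℝ, 1 ≤ ⨆ i, φ (z i) := by
    intro φ
    refine Finite.le_ciSup_of_le i₀ ?_
    rw [hz0, map_one]
  have hfin : (fun v : AdmissibleAbsValues.nonarchAbsVal (K := N) ↦
      ⨆ i, v.val (z i)).HasFiniteMulSupport := by
    have h2 : (⋃ i ∈ {i : ι | z i ≠ 0},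
        Function.mulSupport (fun v : AdmissibleAbsValues.nonarchAbsVal (K := N) ↦ v.val (z i))).Finite :=
      Set.Finite.biUnion (Set.toFinite _) fun i hi =>
        AdmissibleAbsValues.hasFiniteMulSupport hi
    refine h2.subset ?_
    intro v hv
    by_contra hc
    apply hv
    rw [Set.mem_iUnion₂] at hc
    push Not at hc
    apply le_antisymm
    · haveI : Nonempty ι := ⟨i₀⟩
      apply ciSup_le
      intro i
      by_cases hi : z i = 0
      · rw [hi, map_zero]; exact zero_le_one
      · have := hc i hi
        rw [Function.notMem_mulSupport] at this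
        exact this.le
    · exact hle v.val
  rw [h1, logHeight_eq_log_mulHeight, mulHeight_eq hzne, Real.le_log_iff_exp_le]
  · have harch : 1 ≤ ((AdmissibleAbsValues.archAbsVal (K := N)).map fun v ↦ ⨆ i, v (z i)).prod :=
      Multiset.one_le_prod_map fun v _ => hle v
    obtain ⟨s, hs⟩ : ∃ s : Finset (AdmissibleAbsValues.nonarchAbsVal (K := N)),
        s = W.image fun w => ⟨absOf w.1, ⟨w, rfl⟩⟩ := ⟨_, rfl⟩
    have h3 := prod_le_finprod _ hfin (fun v => hle v.val) s
    have h4 : Real.exp (W.card : ℝ) ≤ ∏ v ∈ s, ⨆ i, v.val (z i) := by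
      rw [hs, Finset.prod_image]
      · have h5 : Real.exp (W.card : ℝ) = ∏ w ∈ W, Real.exp 1 := by
          rw [Finset.prod_const, ← Real.exp_nat_mul, mul_one]
        rw [h5]
        apply Finset.prod_le_prod
        · intro w _
          exact (Real.exp_pos _).le
        · intro w hw
          obtain ⟨j, hj⟩ := hW w hw
          refine Finite.le_ciSup_of_le j ?_
          change Real.exp 1 ≤ absOf w.1 (z j)
          rw [hz, Pi.smul_apply, smul_eq_mul, map_mul, map_inv₀, le_inv_mul_iff₀]
          · exact hj
          · exact (absOf w.1).pos hy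
      · intro w _ w' _ h
        have h5 : absOf w.1 = absOf w'.1 := congrArg Subtype.val h
        exact Subtype.ext (absOf_injective hN h5)
    calc Real.exp (W.card : ℝ) ≤ ∏ᶠ v : AdmissibleAbsValues.nonarchAbsVal (K := N),
          ⨆ i, v.val (z i) := h4.trans h3
      _ ≤ _ := le_mul_of_one_le_left ((Real.exp_pos _).le.trans (h4.trans h3)) harch
  · rw [← mulHeight_eq hzne]
    exact mulHeight_pos z

/-- a form which does not vanish at a point vanishes modulo only few places -/
lemma exists_card_le (hN : IsFunctionField K N) (t : N) {ι : Type} [Fintype ι] {e : ℕ}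
    (g : MvPolynomial ι N) (hg : g.IsHomogeneous e) :
    ∃ C : ℝ, ∀ x : ι → N, MvPolynomial.eval x g ≠ 0 → ∀ W : Finset (FinPl K t),
      (∀ w ∈ W, w.1.val (MvPolynomial.eval x g) < 1 ∧ ∃ i, w.1.val (x i) = 1) →
      (W.card : ℝ) ≤ C + e * @logHeight N _ (admissible hN t) ι x := by
  classical
  letI := admissible hN t
  set p : Option ι → MvPolynomial ι N := fun o => o.elim g fun i => MvPolynomial.X i ^ e with hp
  have hp' : ∀ o, (p o).IsHomogeneous e := by
    rintro (_ | i)
    · exact hg
    · exact MvPolynomial.isHomogeneous_X_pow _ _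
  obtain ⟨C, hC⟩ := logHeight_eval_le' hp'
  refine ⟨C, fun x hx W hW => ?_⟩
  refine le_trans ?_ (hC x)
  apply card_le_logHeight hN t _ none hx
  intro w hw
  obtain ⟨h1, i, h2⟩ := hW w hw
  refine ⟨some i, ?_⟩
  change absOf w.1 (MvPolynomial.eval x g) * Real.exp 1 ≤
    absOf w.1 (MvPolynomial.eval x (MvPolynomial.X i ^ e))
  rw [map_pow, MvPolynomial.eval_X, map_pow, absOf_eq_one' w.1 h2, one_pow]
  have h3 := absOf_le_of_lt hN w.1 h1
  calc absOf w.1 (MvPolynomial.eval x g) * Real.exp 1 ≤ Real.exp (-1) * Real.exp 1 :=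
        mul_le_mul_of_nonneg_right h3 (Real.exp_pos _).le
    _ = 1 := by rw [← Real.exp_add]; simp

end Pool.Agent.Helper33.GC
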