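import Pool.Agent.Helper33.GC.Step
import Pool.Agent.Helper36.GapMain

/-!
# The gap theorem with arbitrary complex coefficients
-/

set_option autoImplicit false
set_option linter.style.haveILetI false

namespace Pool.Agent.Helper33.GC

open Pool.Agent.Helper16 Pool.Agent.Helper36 Height Polynomial IntermediateField

theorem T_numberField (K : Type) [Field K] [NumberField K] : T K := by
  intro ι _ d hd F hF hnz a ha S hS hrel
  rcases growth hd F hF hnz (fun n => iter F a n) (iter_ne_zero F hnz a ha)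
    (fun n => iter_succ F a n) with hpre | hgrow
  · exact good_of_preper F hF a S hS hpre
  · exact good_of_growth (O := NumberField.RingOfIntegers K) nonarch_le_one hd F hF hnz a ha hgrow
      S hS hrel

/-- the gap statement over all finite extensions -/
def P (k : Type) [Field k] : Prop :=
  ∀ (M : Type) [Field M] [Algebra k M], FiniteDimensional k M → T M

lemma P_of_finite (k : Type) [Field k] [CharZero k] (hk : FiniteDimensional ℚ k) : P k := by
  intro M _ _ hM
  haveI : CharZero M := charZero_of_injective_algebraMap (algebraMap k M).injective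
  haveI : IsScalarTower ℚ k M := IsScalarTower.rat
  haveI : FiniteDimensional ℚ M := FiniteDimensional.trans ℚ k M
  haveI : NumberField M := ⟨⟩
  exact T_numberField M

lemma isFunctionField_adjoin {k C : Type} [Field k] [Field C] [Algebra k C] (x : C)
    (hx : Transcendental k x) : IsFunctionField k k⟮x⟯ := by
  letI := algXF k x
  haveI := isFractionRing_algXF x hx
  haveI : IsScalarTower k k[X] k⟮x⟯ := by
    refine IsScalarTower.of_algebraMap_eq fun c => ?_
    change algebraMap k k⟮x⟯ c = aeval (AdjoinSimple.gen k x) (algebraMap k k[X] c)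
    rw [Polynomial.algebraMap_eq, aeval_C]
  haveI : Algebra.EssFiniteType k[X] k⟮x⟯ :=
    Algebra.EssFiniteType.of_isLocalization k⟮x⟯ (nonZeroDivisors k[X])
  refine ⟨Algebra.EssFiniteType.comp k k[X] k⟮x⟯, ?_⟩
  have h1 := trdeg_add_eq k k[X] (A := k⟮x⟯)
  haveI : Algebra.IsAlgebraic k[X] k⟮x⟯ :=
    IsLocalization.isAlgebraic k⟮x⟯ (nonZeroDivisors k[X])
  rw [Polynomial.trdeg_of_isDomain, trdeg_eq_zero, add_zero] at h1
  exact h1.symm

theorem P_adjoin {k C : Type} [Field k] [CharZero k] [Field C] [Algebra k C] (x : C)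
    (h : P k) : P k⟮x⟯ := by
  intro M _ _ hM
  letI : Algebra k M := ((algebraMap k⟮x⟯ M).comp (algebraMap k k⟮x⟯)).toAlgebra
  haveI : IsScalarTower k k⟮x⟯ M := IsScalarTower.of_algebraMap_eq fun _ => rfl
  by_cases hx : Transcendental k x
  · apply step_theorem (k := k) _ h
    have h1 := isFunctionField_adjoin x hx
    haveI := h1.1
    refine ⟨Algebra.EssFiniteType.comp k k⟮x⟯ M, ?_⟩
    have h2 := trdeg_add_eq k k⟮x⟯ (A := M)
    rw [trdeg_eq_zero (R := k⟮x⟯) (A := M), add_zero] at h2
    rw [← h2, h1.2]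
  · rw [Transcendental, not_not] at hx
    haveI : FiniteDimensional k k⟮x⟯ := adjoin.finiteDimensional hx.isIntegral
    exact h M (FiniteDimensional.trans k k⟮x⟯ M)

theorem P_fg {C : Type} [Field C] [CharZero C] (s : Finset C) :
    P (IntermediateField.adjoin ℚ (s : Set C)) := by
  classical
  refine IntermediateField.induction_on_adjoin_finset s (fun K => P K) ?_ ?_
  · apply P_of_finite
    infer_instance
  · intro K x _ hK
    exact P_adjoin (k := K) x hK

theorem T_fg {C : Type} [Field C] [CharZero C] (s : Finset C) :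
    T (IntermediateField.adjoin ℚ (s : Set C)) :=
  P_fg s _ inferInstance

/-- the case of a subfield of `ℂ` -/
theorem good_subfield {K : Type} [Field K] [Algebra K ℂ] (hT : T K)
    {N d : ℕ} (hd : 2 ≤ d)
    (F : Fin (N + 1) → MvPolynomial (Fin (N + 1)) K) (hF : ∀ i, (F i).IsHomogeneous d)
    (hnz : ∀ x : Fin (N + 1) → ℂ, (∀ i, MvPolynomial.aeval x (F i) = 0) → x = 0)
    (a : Fin (N + 1) → K) (ha : a ≠ 0)
    (S : Set (MvPolynomial (Fin (N + 1)) ℂ)) (hS : ∀ g ∈ S, ∃ e, g.IsHomogeneous e)
    (hdim : ringKrullDim (MvPolynomial (Fin (N + 1)) ℂ ⧸ Ideal.span S) ≤ 2) :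
    Good {n | ∀ g ∈ S, MvPolynomial.eval (fun i => algebraMap K ℂ (iter F a n i)) g = 0} := by
  classical
  have hinj : Function.Injective (algebraMap K ℂ) := FaithfulSMul.algebraMap_injective K ℂ
  -- descent of the equations
  set S' : Set (MvPolynomial (Fin (N + 1)) K) :=
    {h | ∃ g ∈ S, ∃ ρ : ℂ →ₗ[K] K, h = mapLin ρ g} with hS'
  have hS'hom : ∀ g ∈ S', ∃ e, g.IsHomogeneous e := by
    rintro _ ⟨g, hg, ρ, rfl⟩
    obtain ⟨e, he⟩ := hS g hg
    exact ⟨e, mapLin_isHomogeneous ρ he⟩
  have hSS' : ∀ x : Fin (N + 1) → K, (∀ h ∈ S', MvPolynomial.eval x h = 0) ↔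
      ∀ g ∈ S, MvPolynomial.eval (fun i => algebraMap K ℂ (x i)) g = 0 := by
    intro x
    constructor
    · intro h g hg
      rw [eval_eq_zero_iff_mapLin]
      exact fun ρ => h _ ⟨g, hg, ρ, rfl⟩
    · rintro h _ ⟨g, hg, ρ, rfl⟩
      exact (eval_eq_zero_iff_mapLin g x).1 (h g hg) ρ
  have hset : {n | ∀ g ∈ S, MvPolynomial.eval (fun i => algebraMap K ℂ (iter F a n i)) g = 0} =
      {n | ∀ h ∈ S', MvPolynomial.eval (iter F a n) h = 0} := by
    ext n
    exact (hSS' (iter F a n)).symm
  rw [hset]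
  apply hT (Fin (N + 1)) d hd F hF _ a ha S' hS'hom
  · intro a b c
    obtain ⟨e, Q, hQ1, hQ2, hQ3⟩ := exists_homogeneous_relation S hS hdim a b c
    obtain ⟨ρ, hρ⟩ := exists_mapLin_ne_zero (K := K) hQ2
    refine ⟨e, mapLin ρ Q, mapLin_isHomogeneous ρ hQ1, hρ, fun x hx => ?_⟩
    rw [eval_mapLin]
    have h1 := hQ3 (fun i => algebraMap K ℂ (x i)) ((hSS' x).1 hx)
    have h2 : (fun i => algebraMap K ℂ ((![x a, x b, x c] : Fin 3 → K) i)) =
        ![algebraMap K ℂ (x a), algebraMap K ℂ (x b), algebraMap K ℂ (x c)] := by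
      funext i
      fin_cases i <;> rfl
    rw [h2, h1, map_zero]
  · intro x hx
    let φ : AlgebraicClosure K →ₐ[K] ℂ := IsAlgClosed.lift
    have h1 : (fun i => φ (x i)) = 0 := by
      apply hnz
      intro i
      have h2 : MvPolynomial.aeval (fun i => φ (x i)) (F i) = φ (MvPolynomial.aeval x (F i)) :=
        (MvPolynomial.comp_aeval_apply (φ := φ) (f := x) (F i)).symm
      rw [h2, hx i, map_zero]
    funext i
    apply φ.injective
    rw [Pi.zero_apply, map_zero]
    exact congrFun h1 i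

/-- the general case -/
theorem good_complex (N d : ℕ) (hd : 2 ≤ d)
    (f : Fin (N + 1) → MvPolynomial (Fin (N + 1)) ℂ) (hf : ∀ i, (f i).IsHomogeneous d)
    (hnz : ∀ x : Fin (N + 1) → ℂ, (∀ i, MvPolynomial.eval x (f i) = 0) → x = 0)
    (S : Set (MvPolynomial (Fin (N + 1)) ℂ)) (hS : ∀ g ∈ S, ∃ e, g.IsHomogeneous e)
    (hdim : N ≤ 2 ∨ ringKrullDim (MvPolynomial (Fin (N + 1)) ℂ ⧸ Ideal.span S) ≤ 2)
    (a : Fin (N + 1) → ℂ) (ha : a ≠ 0) :
    Good {n : ℕ | ∀ g ∈ S, MvPolynomial.eval
      ((fun x : Fin (N + 1) → ℂ => fun i => MvPolynomial.eval x (f i))^[n] a) g = 0} := by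
  classical
  by_cases hzero : ∀ g ∈ S, g = 0
  · apply Good.of_AP
    obtain ⟨T, hT⟩ := APSet_univ
    refine ⟨T, ?_⟩
    rw [← hT, Set.eq_univ_iff_forall]
    intro n g hg
    rw [hzero g hg, map_zero]
  push Not at hzero
  obtain ⟨g₀, hg₀, hg₀0⟩ := hzero
  have hdim' : ringKrullDim (MvPolynomial (Fin (N + 1)) ℂ ⧸ Ideal.span S) ≤ 2 := by
    rcases hdim with h | h
    · exact krullDim_le_two h S hg₀ hg₀0
    · exact h
  -- the field of definition
  set T : Finset ℂ := (Finset.univ.biUnion fun i : Fin (N + 1) => (f i).support.image (f i).coeff) ∪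
    Finset.univ.image a with hT
  set K : IntermediateField ℚ ℂ := IntermediateField.adjoin ℚ (T : Set ℂ) with hK
  have hcoef : ∀ i m, (f i).coeff m ∈ K := by
    intro i m
    by_cases hm : m ∈ (f i).support
    · apply IntermediateField.subset_adjoin
      rw [Finset.mem_coe, hT]
      exact Finset.mem_union_left _ (Finset.mem_biUnion.2 ⟨i, Finset.mem_univ _,
        Finset.mem_image_of_mem _ hm⟩)
    · rw [MvPolynomial.notMem_support_iff.1 hm]
      exact zero_mem K
  have hlift : ∀ i, ∃ F : MvPolynomial (Fin (N + 1)) K,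
      MvPolynomial.map (algebraMap K ℂ) F = f i := by
    intro i
    refine ⟨∑ m ∈ (f i).support, MvPolynomial.monomial m (⟨(f i).coeff m, hcoef i m⟩ : K), ?_⟩
    rw [map_sum]
    conv_rhs => rw [(f i).as_sum]
    refine Finset.sum_congr rfl fun m _ => ?_
    rw [MvPolynomial.map_monomial]
    rfl
  choose F hFf using hlift
  have hinj : Function.Injective (algebraMap K ℂ) := FaithfulSMul.algebraMap_injective K ℂ
  have hF : ∀ i, (F i).IsHomogeneous d := fun i =>
    MvPolynomial.IsHomogeneous.of_map hinj (by rw [hFf]; exact hf i)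
  have haK : ∀ i, a i ∈ K := fun i => IntermediateField.subset_adjoin _ _ (by
    rw [Finset.mem_coe, hT]
    exact Finset.mem_union_right _ (Finset.mem_image_of_mem _ (Finset.mem_univ _)))
  set aK : Fin (N + 1) → K := fun i => ⟨a i, haK i⟩ with haKdef
  have haev : ∀ (x : Fin (N + 1) → ℂ) i, MvPolynomial.aeval x (F i) =
      MvPolynomial.eval x (f i) := by
    intro x i
    rw [← hFf i, MvPolynomial.eval_map, MvPolynomial.aeval_def]
  have horb : ∀ n, (fun x : Fin (N + 1) → ℂ => fun i => MvPolynomial.eval x (f i))^[n] a =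
      fun i => algebraMap K ℂ (iter F aK n i) := by
    intro n
    induction n with
    | zero => rfl
    | succ n ih =>
      rw [Function.iterate_succ_apply', ih]
      funext i
      rw [iter_succ, ← haev]
      exact MvPolynomial.aeval_algebraMap_apply (A := K) (B := ℂ) (iter F aK n) (F i)
  have hmain := good_subfield (K := K) (T_fg T) hd F hF (fun x hx => hnz x fun i => by
    rw [← haev]; exact hx i) aK (by
      intro h
      apply ha
      funext i
      have := congrFun h i
      have h2 : ((aK i : K) : ℂ) = 0 := by rw [this]; rfl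
      exact h2) S hS hdim'
  have hset : {n : ℕ | ∀ g ∈ S, MvPolynomial.eval
      ((fun x : Fin (N + 1) → ℂ => fun i => MvPolynomial.eval x (f i))^[n] a) g = 0} =
      {n | ∀ g ∈ S, MvPolynomial.eval (fun i => algebraMap K ℂ (iter F aK n i)) g = 0} := by
    ext n
    simp only [Set.mem_ofPred_eq, horb]
  rw [hset]
  exact hmain

end Pool.Agent.Helper33.GC
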