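import Pool.Agent.Helper16.FF8
import Pool.Agent.Helper36.Component

/-!
# Reduction of return sets at a place of good reduction
-/

set_option autoImplicit false

namespace Pool.Agent.Helper33.GC

open Pool.Agent.Helper16 Pool.Agent.Helper36

/-- The gap statement over the field `K`. -/
def T (K : Type) [Field K] : Prop :=
  ∀ (ι : Type) [Fintype ι] (d : ℕ), 2 ≤ d → ∀ (F : ι → MvPolynomial ι K),
    (∀ i, (F i).IsHomogeneous d) →
    (∀ x : ι → AlgebraicClosure K, (∀ i, MvPolynomial.aeval x (F i) = 0) → x = 0) →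
    ∀ a : ι → K, a ≠ 0 → ∀ S : Set (MvPolynomial ι K), (∀ g ∈ S, ∃ e, g.IsHomogeneous e) →
    (∀ a b c : ι, ∃ (e : ℕ) (Q : MvPolynomial (Fin 3) K), Q.IsHomogeneous e ∧ Q ≠ 0 ∧
      ∀ x : ι → K, (∀ g ∈ S, MvPolynomial.eval x g = 0) →
        MvPolynomial.eval ![x a, x b, x c] Q = 0) →
    Good {n | ∀ g ∈ S, MvPolynomial.eval (iter F a n) g = 0}

section base

variable {R B : Type} [CommRing R] [CommRing B] [Algebra R B] {ι : Type}

lemma iter_mapCoeff (F : ι → MvPolynomial ι R) (u : ι → B) (n : ℕ) :
    iter (fun i => MvPolynomial.map (algebraMap R B) (F i)) u n = iter F u n := by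
  induction n with
  | zero => rfl
  | succ n ih =>
    rw [iter_succ, iter_succ, ih]
    funext i
    exact MvPolynomial.aeval_map_algebraMap B (iter F u n) (F i)

lemma iter_algebraMap (F : ι → MvPolynomial ι R) (u : ι → R) (n : ℕ) :
    iter (fun i => MvPolynomial.map (algebraMap R B) (F i)) (fun i => algebraMap R B (u i)) n =
      fun i => algebraMap R B (iter F u n i) := by
  rw [iter_mapCoeff]
  exact iter_map F (Algebra.ofId R B) u n

lemma eval_algebraMap (g : MvPolynomial ι R) (x : ι → R) :
    MvPolynomial.eval (fun i => algebraMap R B (x i)) (MvPolynomial.map (algebraMap R B) g) =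
      algebraMap R B (MvPolynomial.eval x g) := by
  rw [MvPolynomial.eval_map]
  exact (MvPolynomial.eval₂_comp_left (algebraMap R B) (RingHom.id R) x g).symm

end base

/-- lifting a polynomial to a subring containing its coefficients -/
lemma exists_lift {k L : Type} [Field k] [Field L] [Algebra k L] (R : Subalgebra k L) {σ : Type}
    (g : MvPolynomial σ L) (h : ∀ m, g.coeff m ∈ R) :
    ∃ g' : MvPolynomial σ R, MvPolynomial.map (algebraMap R L) g' = g := by
  refine ⟨∑ m ∈ g.support, MvPolynomial.monomial m (⟨g.coeff m, h m⟩ : R), ?_⟩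
  rw [map_sum]
  conv_rhs => rw [g.as_sum]
  refine Finset.sum_congr rfl fun m _ => ?_
  rw [MvPolynomial.map_monomial]
  rfl

theorem reduce_at {k L : Type} [Field k] [Field L] [Algebra k L] (w : Place k L)
    (hT : T w.resField) {ι : Type} [Fintype ι] {d : ℕ} (hd : 2 ≤ d) (F : ι → MvPolynomial ι L)
    (hF : ∀ i, (F i).IsHomogeneous d) {M : ℕ} (q : ι × ι → MvPolynomial ι L)
    (hqF : ∀ i, ∑ j, q (i, j) * F j = MvPolynomial.X i ^ (M + d))
    (hFw : ∀ i m, (F i).coeff m ∈ w.ring) (hqw : ∀ a m, (q a).coeff m ∈ w.ring)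
    (a : ι → L) (haw : ∀ i, a i ∈ w.ring) (haprim : ∃ i, w.val (a i) = 1)
    (S : Set (MvPolynomial ι L)) (hS : ∀ g ∈ S, ∃ e, g.IsHomogeneous e)
    (hSw : ∀ g ∈ S, ∀ m, g.coeff m ∈ w.ring)
    (Q : ι → ι → ι → MvPolynomial (Fin 3) L) (hQhom : ∀ a b c, ∃ e, (Q a b c).IsHomogeneous e)
    (hQ0 : ∀ a b c, Q a b c ≠ 0)
    (hQw : ∀ a b c m, (Q a b c).coeff m ≠ 0 → w.val ((Q a b c).coeff m) = 1)
    (hrel : ∀ x : ι → L, (∀ g ∈ S, MvPolynomial.eval x g = 0) → ∀ a b c,
      MvPolynomial.eval ![x a, x b, x c] (Q a b c) = 0) :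
    ∃ E : Set ℕ, Good E ∧ (∀ n, (∀ g ∈ S, MvPolynomial.eval (iter F a n) g = 0) → n ∈ E) ∧
      (∀ n ∈ E, ∀ g ∈ S, w.val (MvPolynomial.eval (iter F a n) g) < 1) ∧
      ∀ n, ∃ i, w.val (iter F a n i) = 1 := by
  classical
  set R : Subalgebra k L := w.ring with hR
  have hinj : Function.Injective (algebraMap R L) := Subtype.val_injective
  -- lifts
  choose F' hF' using fun i => exists_lift R (F i) (hFw i)
  choose q' hq' using fun a => exists_lift R (q a) (hqw a)
  have hQmem : ∀ a b c m, (Q a b c).coeff m ∈ R := by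
    intro a b c m
    by_cases h : (Q a b c).coeff m = 0
    · rw [h]; exact zero_mem _
    · exact (hQw a b c m h).le
  have hFF' : F = fun i => MvPolynomial.map (algebraMap R L) (F' i) := funext fun i => (hF' i).symm
  set a' : ι → R := fun i => ⟨a i, haw i⟩ with ha'
  set x : ℕ → ι → R := fun n => iter F' a' n with hx
  have hxL : ∀ n, iter F a n = fun i => algebraMap R L (x n i) := by
    intro n
    have h1 := iter_algebraMap (B := L) F' a' n
    rw [← hFF'] at h1
    exact h1
  set Fb : ι → MvPolynomial ι w.resField := fun i =>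
    MvPolynomial.map (algebraMap R w.resField) (F' i) with hFb
  set ab : ι → w.resField := fun i => algebraMap R w.resField (a' i) with hab
  have hxb : ∀ n, iter Fb ab n = fun i => algebraMap R w.resField (x n i) := fun n =>
    iter_algebraMap (B := w.resField) F' a' n
  have hres : ∀ y : R, algebraMap R w.resField y = 0 ↔ w.val (y : L) < 1 := by
    intro y
    have h1 : algebraMap R w.resField y = IsLocalRing.residue w.ring y := rfl
    rw [h1, IsLocalRing.residue_eq_zero_iff, Place.mem_maximalIdeal]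
  have hval : ∀ y : R, w.val (y : L) = 1 ↔ algebraMap R w.resField y ≠ 0 := by
    intro y
    rw [Ne, hres, not_lt]
    exact ⟨fun h => h.ge, fun h => le_antisymm y.2 h⟩
  have hFb_hom : ∀ i, (Fb i).IsHomogeneous d := fun i =>
    (MvPolynomial.IsHomogeneous.of_map hinj (by rw [hF']; exact hF i)).map _
  -- the Nullstellensatz identity
  have hqR : ∀ i, ∑ j, q' (i, j) * F' j = MvPolynomial.X i ^ (M + d) := by
    intro i
    apply MvPolynomial.map_injective (algebraMap R L) hinj
    rw [map_sum, map_pow, MvPolynomial.map_X, ← hqF i]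
    refine Finset.sum_congr rfl fun j _ => ?_
    rw [map_mul, hq', hF']
  have hqb : ∀ i, ∑ j, MvPolynomial.map (algebraMap R w.resField) (q' (i, j)) * Fb j =
      MvPolynomial.X i ^ (M + d) := by
    intro i
    have h1 := congrArg (MvPolynomial.map (algebraMap R w.resField)) (hqR i)
    rw [map_sum, map_pow, MvPolynomial.map_X] at h1
    rw [← h1]
    refine Finset.sum_congr rfl fun j _ => ?_
    rw [map_mul]
  have hMd : M + d ≠ 0 := by omega
  have hnzb : ∀ (A : Type) [Field A] [Algebra w.resField A] (u : ι → A),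
      (∀ i, MvPolynomial.aeval u (Fb i) = 0) → u = 0 := by
    intro A _ _ u hu
    funext i
    have h1 := congrArg (MvPolynomial.aeval u) (hqb i)
    rw [map_sum, map_pow, MvPolynomial.aeval_X] at h1
    rw [Finset.sum_eq_zero (fun j _ => by rw [map_mul, hu j, mul_zero])] at h1
    exact pow_eq_zero_iff hMd |>.1 h1.symm
  have hab0 : ab ≠ 0 := by
    obtain ⟨i, hi⟩ := haprim
    intro h
    exact (hval (a' i)).1 hi (congrFun h i)
  have hne : ∀ n, iter Fb ab n ≠ 0 := by
    intro n
    induction n with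
    | zero => exact hab0
    | succ n ih =>
      intro h
      apply ih
      apply hnzb w.resField
      intro i
      have h1 := congrFun h i
      rw [iter_succ] at h1
      exact h1
  -- the reduced equations
  set Sb : Set (MvPolynomial ι w.resField) :=
    {h | ∃ g' : MvPolynomial ι R, MvPolynomial.map (algebraMap R L) g' ∈ S ∧
      h = MvPolynomial.map (algebraMap R w.resField) g'} ∪
    {h | ∃ (a b c : ι) (Q' : MvPolynomial (Fin 3) R),
      MvPolynomial.map (algebraMap R L) Q' = Q a b c ∧
      h = MvPolynomial.rename ![a, b, c] (MvPolynomial.map (algebraMap R w.resField) Q')} with hSb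
  have hSbhom : ∀ g ∈ Sb, ∃ e, g.IsHomogeneous e := by
    rintro _ (⟨g', hg', rfl⟩ | ⟨a, b, c, Q', hQ', rfl⟩)
    · obtain ⟨e, he⟩ := hS _ hg'
      exact ⟨e, (MvPolynomial.IsHomogeneous.of_map hinj he).map _⟩
    · obtain ⟨e, he⟩ := hQhom a b c
      rw [← hQ'] at he
      exact ⟨e, ((MvPolynomial.IsHomogeneous.of_map hinj he).map _).rename_isHomogeneous⟩
  have hgood := hT ι d hd Fb hFb_hom (hnzb (AlgebraicClosure w.resField)) ab hab0 Sb hSbhom (by
    intro a b c
    obtain ⟨Q', hQ'⟩ := exists_lift R (Q a b c) (hQmem a b c)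
    obtain ⟨e, he⟩ := hQhom a b c
    rw [← hQ'] at he
    refine ⟨e, MvPolynomial.map (algebraMap R w.resField) Q',
      (MvPolynomial.IsHomogeneous.of_map hinj he).map _, ?_, ?_⟩
    · obtain ⟨m, hm⟩ := MvPolynomial.ne_zero_iff.1 (hQ0 a b c)
      rw [MvPolynomial.ne_zero_iff]
      refine ⟨m, ?_⟩
      rw [MvPolynomial.coeff_map]
      apply (hval _).1
      have h1 : ((Q'.coeff m : R) : L) = (Q a b c).coeff m := by
        rw [← hQ', MvPolynomial.coeff_map]
        rfl
      rw [h1]
      exact hQw a b c m hm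
    · intro y hy
      have h1 := hy (MvPolynomial.rename ![a, b, c]
        (MvPolynomial.map (algebraMap R w.resField) Q')) (Or.inr ⟨a, b, c, Q', hQ', rfl⟩)
      rw [MvPolynomial.eval_rename] at h1
      have h2 : y ∘ ![a, b, c] = ![y a, y b, y c] := by
        funext i
        fin_cases i <;> rfl
      rw [h2] at h1
      exact h1)
  refine ⟨_, hgood, ?_, ?_, ?_⟩
  · intro n hn
    rw [Set.mem_ofPred_eq]
    rw [hxL n] at hn
    rintro _ (⟨g', hg', rfl⟩ | ⟨a, b, c, Q', hQ', rfl⟩)
    · rw [hxb n, eval_algebraMap]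
      have h1 := hn _ hg'
      rw [eval_algebraMap] at h1
      rw [hinj (h1.trans (map_zero _).symm), map_zero]
    · rw [hxb n, MvPolynomial.eval_rename]
      have h2 : (fun i => algebraMap R w.resField (x n i)) ∘ ![a, b, c] =
          fun i => algebraMap R w.resField ((![x n a, x n b, x n c] : Fin 3 → R) i) := by
        funext i
        fin_cases i <;> rfl
      rw [h2, eval_algebraMap]
      have h1 := hrel _ hn a b c
      have h3 : (![algebraMap R L (x n a), algebraMap R L (x n b), algebraMap R L (x n c)] :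
          Fin 3 → L) = fun i => algebraMap R L ((![x n a, x n b, x n c] : Fin 3 → R) i) := by
        funext i
        fin_cases i <;> rfl
      rw [h3, ← hQ', eval_algebraMap] at h1
      rw [hinj (h1.trans (map_zero _).symm), map_zero]
  · intro n hn g hg
    obtain ⟨g', hg'⟩ := exists_lift R g (hSw g hg)
    have h1 := hn (MvPolynomial.map (algebraMap R w.resField) g')
      (Or.inl ⟨g', by rw [hg']; exact hg, rfl⟩)
    rw [hxb n, eval_algebraMap, hres] at h1
    rw [hxL n, ← hg', eval_algebraMap]
    exact h1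
  · intro n
    obtain ⟨i, hi⟩ := Function.ne_iff.1 (hne n)
    refine ⟨i, ?_⟩
    rw [hxL n]
    apply (hval _).2
    rw [hxb n] at hi
    exact hi

end Pool.Agent.Helper33.GC
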