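import Pool.Agent.Helper33.GC.FFHeight
import Pool.Agent.Helper33.GC.Reduce
import Pool.Agent.Helper33.GC.Sets
import Pool.Agent.Helper36.Chart

/-!
# The gap statement over a function field of one variable
-/

set_option autoImplicit false
set_option linter.style.haveILetI false

namespace Pool.Agent.Helper33.GC

open Pool.Agent.Helper16 Pool.Agent.Helper36 Height Height.AdmissibleAbsValues

section general

variable {K : Type} [Field K] {ι : Type} [Fintype ι]

omit [Fintype ι] in
lemma iter_ne_zero (F : ι → MvPolynomial ι K)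
    (hnz : ∀ x : ι → AlgebraicClosure K, (∀ i, MvPolynomial.aeval x (F i) = 0) → x = 0)
    (a : ι → K) (ha : a ≠ 0) (n : ℕ) : iter F a n ≠ 0 := by
  have hinj : Function.Injective (algebraMap K (AlgebraicClosure K)) :=
    FaithfulSMul.algebraMap_injective _ _
  induction n with
  | zero => exact ha
  | succ n ih =>
    intro h
    apply ih
    have h1 : (fun i => algebraMap K (AlgebraicClosure K) (iter F a n i)) = 0 := by
      apply hnz
      intro i
      have h2 : MvPolynomial.aeval (fun i => algebraMap K (AlgebraicClosure K) (iter F a n i)) (F i)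
          = algebraMap K (AlgebraicClosure K) (MvPolynomial.aeval (iter F a n) (F i)) :=
        MvPolynomial.aeval_algebraMap_apply (A := K) (B := AlgebraicClosure K) (iter F a n) (F i)
      rw [h2]
      have h3 : MvPolynomial.aeval (iter F a n) (F i) = iter F a (n + 1) i := by
        rw [iter_succ]; rfl
      rw [h3, h]
      simp
    funext i
    apply hinj
    have := congrFun h1 i
    simpa using this

omit [Fintype ι] in
lemma good_of_preper {d : ℕ} (F : ι → MvPolynomial ι K) (hF : ∀ i, (F i).IsHomogeneous d)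
    (a : ι → K) (S : Set (MvPolynomial ι K)) (hS : ∀ g ∈ S, ∃ e, g.IsHomogeneous e)
    (h : ∃ n m, n < m ∧ PEq (iter F a n) (iter F a m)) :
    Good {n | ∀ g ∈ S, MvPolynomial.eval (iter F a n) g = 0} := by
  obtain ⟨n, m, hnm, hPEq⟩ := h
  apply Good.of_AP
  apply APSet_of_evClosed (k := m - n) (by omega)
  apply (Set.finite_Iio n).subset
  rintro i ⟨hi, hik⟩
  rw [Set.mem_Iio]
  by_contra hlt
  push Not at hlt
  apply hik
  intro g hg
  obtain ⟨e, he⟩ := hS g hg
  obtain ⟨j, rfl⟩ := Nat.exists_eq_add_of_le hlt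
  have h1 : ∀ l, iter F a (l + j) = iter F (iter F a l) j := fun l => by
    rw [Nat.add_comm l j, iter_add]
  have h2 : PEq (iter F a (n + j)) (iter F a (m + j)) := by
    rw [h1, h1]; exact hPEq.iter hF j
  have h3 : n + j + (m - n) = m + j := by omega
  rw [h3]
  have h4 := h2.aeval_eq_zero_iff he
  rw [MvPolynomial.aeval_eq_eval, MvPolynomial.aeval_eq_eval] at h4
  exact h4.1 (hi g hg)

theorem good_of_growth [CharZero K] [AdmissibleAbsValues K] {O : Type*} [CommRing O] [IsDomain O]
    [Algebra O K] [IsFractionRing O K]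
    (hint : ∀ v ∈ nonarchAbsVal (K := K), ∀ c : O, v (algebraMap O K c) ≤ 1)
    {d : ℕ} (hd : 2 ≤ d) (F : ι → MvPolynomial ι K) (hF : ∀ i, (F i).IsHomogeneous d)
    (hnz : ∀ x : ι → AlgebraicClosure K, (∀ i, MvPolynomial.aeval x (F i) = 0) → x = 0)
    (a : ι → K) (ha : a ≠ 0)
    (hgrow : ∃ n₀, ∀ n, n₀ ≤ n → (d : ℝ) ^ (n - n₀) ≤ logHeight (iter F a n))
    (S : Set (MvPolynomial ι K)) (hS : ∀ g ∈ S, ∃ e, g.IsHomogeneous e)
    (hrel : ∀ a b c : ι, ∃ (e : ℕ) (Q : MvPolynomial (Fin 3) K), Q.IsHomogeneous e ∧ Q ≠ 0 ∧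
      ∀ x : ι → K, (∀ g ∈ S, MvPolynomial.eval x g = 0) →
        MvPolynomial.eval ![x a, x b, x c] Q = 0) :
    Good {n | ∀ g ∈ S, MvPolynomial.eval (iter F a n) g = 0} := by
  classical
  by_cases hpre : ∃ n m, n < m ∧ PEq (iter F a n) (iter F a m)
  · exact good_of_preper F hF a S hS hpre
  push Not at hpre
  have hP0 := iter_ne_zero F hnz a ha
  have hun : {n | ∀ h ∈ S, MvPolynomial.eval (iter F a n) h = 0} =
      ⋃ j ∈ (Finset.univ : Finset ι),
        {n | (∀ g ∈ S, MvPolynomial.eval (iter F a n) g = 0) ∧ iter F a n j ≠ 0} := by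
    ext n
    simp only [Finset.mem_univ, Set.iUnion_true, Set.mem_iUnion, Set.mem_ofPred_eq]
    constructor
    · intro h
      obtain ⟨j, hj⟩ := Function.ne_iff.1 (hP0 n)
      exact ⟨j, h, hj⟩
    · rintro ⟨_, h, _⟩
      exact h
  rw [hun]
  apply Good.biUnion
  intro j _
  exact chart_good (O := O) hint hd F hF (fun n => iter F a n) hP0 (fun n => iter_succ F a n) hgrow
    hpre S hS hrel j

/-- bounded heights or exponential growth -/
theorem growth_or_bounded [AdmissibleAbsValues K] {d : ℕ} (hd : 2 ≤ d)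
    (F : ι → MvPolynomial ι K) (hF : ∀ i, (F i).IsHomogeneous d)
    (hnz : ∀ x : ι → AlgebraicClosure K, (∀ i, MvPolynomial.aeval x (F i) = 0) → x = 0)
    (a : ι → K) :
    (∃ H : ℝ, ∀ n, logHeight (iter F a n) ≤ H) ∨
      ∃ n₀, ∀ n, n₀ ≤ n → (d : ℝ) ^ (n - n₀) ≤ logHeight (iter F a n) := by
  obtain ⟨C, hC⟩ := exists_logHeight_step_ge F hF hnz
  set c : ℝ := max 0 (-C) with hc
  have hc0 : 0 ≤ c := le_max_left _ _
  have hcC : -c ≤ C := by
    have : -C ≤ c := le_max_right _ _
    linarith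
  by_cases h : ∀ n, logHeight (iter F a n) ≤ c + 1
  · left
    exact ⟨_, h⟩
  · right
    push Not at h
    obtain ⟨n₀, hn₀⟩ := h
    refine ⟨n₀, ?_⟩
    have hd2 : (2 : ℝ) ≤ d := by exact_mod_cast hd
    have key : ∀ j : ℕ, (d : ℝ) ^ j + c ≤ logHeight (iter F a (n₀ + j)) := by
      intro j
      induction j with
      | zero => simp only [pow_zero, add_zero]; linarith
      | succ j ih =>
        have h1 := hC (iter F a (n₀ + j))
        rw [← iter_succ] at h1
        have h2 : (d : ℝ) * ((d : ℝ) ^ j + c) ≤ d * logHeight (iter F a (n₀ + j)) :=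
          mul_le_mul_of_nonneg_left ih (by linarith)
        have h3 : 2 * c ≤ d * c := mul_le_mul_of_nonneg_right hd2 hc0
        rw [pow_succ]
        change (d : ℝ) ^ j * d + c ≤ logHeight (iter F a (n₀ + j + 1))
        nlinarith
    intro n hn
    obtain ⟨j, rfl⟩ := Nat.exists_eq_add_of_le hn
    rw [Nat.add_sub_cancel_left]
    have := key j
    linarith

lemma exists_finset_equations (S : Set (MvPolynomial ι K)) :
    ∃ S₀ : Finset (MvPolynomial ι K), (S₀ : Set (MvPolynomial ι K)) ⊆ S ∧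
      ∀ x : ι → K, (∀ g ∈ S₀, MvPolynomial.eval x g = 0) → ∀ g ∈ S, MvPolynomial.eval x g = 0 := by
  obtain ⟨S₀, h1, h2⟩ := Submodule.fg_span_iff_fg_span_finset_subset S |>.1
    ((isNoetherianRing_iff_ideal_fg (MvPolynomial ι K)).1 inferInstance (Ideal.span S))
  refine ⟨S₀, h1, fun x hx g hg => ?_⟩
  have h3 : g ∈ Submodule.span (MvPolynomial ι K) (S₀ : Set (MvPolynomial ι K)) := by
    rw [← h2]
    exact Submodule.subset_span hg
  clear hg
  induction h3 using Submodule.span_induction with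
  | mem g hg => exact hx g hg
  | zero => rw [map_zero]
  | add a b _ _ ha hb => rw [map_add, ha, hb, add_zero]
  | smul a b _ hb => rw [smul_eq_mul, map_mul, hb, mul_zero]

end general

theorem step_theorem {k L : Type} [Field k] [CharZero k] [Field L] [Algebra k L]
    (hL : IsFunctionField k L)
    (h : ∀ (M : Type) [Field M] [Algebra k M], FiniteDimensional k M → T M) : T L := by
  classical
  intro ι _ d hd F hF hnz a ha S hS hrel
  haveI : CharZero L := charZero_of_injective_algebraMap (algebraMap k L).injective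
  obtain ⟨t, ht⟩ : ∃ t : L, Transcendental k t := by
    by_contra hc
    push Not at hc
    haveI : Algebra.IsAlgebraic k L := ⟨fun x => by
      have := hc x
      rwa [Transcendental, not_not] at this⟩
    have h0 := hL.2
    rw [trdeg_eq_zero] at h0
    exact zero_ne_one h0
  haveI := hL.finiteDimensional t ht
  haveI := isFractionRing_IC t ht
  letI := admissible hL t
  have hint : ∀ v ∈ nonarchAbsVal (K := L), ∀ c : IC k t, v (algebraMap (IC k t) L c) ≤ 1 := by
    rintro _ ⟨v, rfl⟩ c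
    exact absOf_le_one v.1 (IntOver.mem_ring (K := k) c.2 v.1 v.2)
  rcases growth_or_bounded hd F hF hnz a with ⟨H, hH⟩ | hgrow
  swap
  · exact good_of_growth hint hd F hF hnz a ha hgrow S hS hrel
  obtain ⟨S₀, hS₀S, hS₀⟩ := exists_finset_equations S
  have hS₀iff : ∀ x : ι → L, (∀ g ∈ S₀, MvPolynomial.eval x g = 0) ↔
      ∀ g ∈ S, MvPolynomial.eval x g = 0 := fun x => ⟨hS₀ x, fun h g hg => h g (hS₀S hg)⟩
  obtain ⟨M, q, hq, hqF⟩ := exists_nullstellensatz F hF hnz
  choose e Q hQ1 hQ2 hQ3 using hrel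
  -- the relevant elements
  set X : Finset L := ((Finset.univ.biUnion fun i : ι => (F i).support.image (F i).coeff) ∪
    (Finset.univ.biUnion fun i : ι × ι => (q i).support.image (q i).coeff)) ∪
    ((Finset.univ.image a ∪ S₀.biUnion fun g => g.support.image g.coeff) ∪
    (Finset.univ.biUnion fun i : ι × ι × ι => (Q i.1 i.2.1 i.2.2).support.image
      (Q i.1 i.2.1 i.2.2).coeff)) with hX
  obtain ⟨B, hB⟩ := exists_finset_places hL X
  have hXF : ∀ i m, (F i).coeff m ≠ 0 → (F i).coeff m ∈ X := fun i m hm => by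
    rw [hX]
    refine Finset.mem_union_left _ (Finset.mem_union_left _ (Finset.mem_biUnion.2
      ⟨i, Finset.mem_univ _, Finset.mem_image_of_mem _ (MvPolynomial.mem_support_iff.2 hm)⟩))
  have hXq : ∀ i m, (q i).coeff m ≠ 0 → (q i).coeff m ∈ X := fun i m hm => by
    rw [hX]
    refine Finset.mem_union_left _ (Finset.mem_union_right _ (Finset.mem_biUnion.2
      ⟨i, Finset.mem_univ _, Finset.mem_image_of_mem _ (MvPolynomial.mem_support_iff.2 hm)⟩))
  have hXa : ∀ i, a i ∈ X := fun i => by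
    rw [hX]
    exact Finset.mem_union_right _ (Finset.mem_union_left _ (Finset.mem_union_left _
      (Finset.mem_image_of_mem _ (Finset.mem_univ _))))
  have hXS : ∀ g ∈ S₀, ∀ m, g.coeff m ≠ 0 → g.coeff m ∈ X := fun g hg m hm => by
    rw [hX]
    exact Finset.mem_union_right _ (Finset.mem_union_left _ (Finset.mem_union_right _
      (Finset.mem_biUnion.2 ⟨g, hg, Finset.mem_image_of_mem _
        (MvPolynomial.mem_support_iff.2 hm)⟩)))
  have hXQ : ∀ a b c m, (Q a b c).coeff m ≠ 0 → (Q a b c).coeff m ∈ X := fun a b c m hm => by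
    rw [hX]
    exact Finset.mem_union_right _ (Finset.mem_union_right _ (Finset.mem_biUnion.2
      ⟨(a, b, c), Finset.mem_univ _, Finset.mem_image_of_mem _
        (MvPolynomial.mem_support_iff.2 hm)⟩))
  have hXring : ∀ w : Place k L, w ∉ B → ∀ x : L, (x ≠ 0 → x ∈ X) → x ∈ w.ring := by
    intro w hw x hx
    by_cases hx0 : x = 0
    · rw [hx0]; exact zero_mem _
    · exact (hB w hw x (hx hx0) hx0).le
  -- the bound
  have hbound : ∀ g : MvPolynomial ι L, ∃ C : ℝ, g ∈ S₀ → ∀ x : ι → L, logHeight x ≤ H →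
      MvPolynomial.eval x g ≠ 0 → ∀ W : Finset (FinPl k t),
      (∀ w ∈ W, w.1.val (MvPolynomial.eval x g) < 1 ∧ ∃ i, w.1.val (x i) = 1) →
      (W.card : ℝ) ≤ C := by
    intro g
    by_cases hg : g ∈ S₀
    · obtain ⟨e, he⟩ := hS g (hS₀S hg)
      obtain ⟨C, hC⟩ := exists_card_le hL t g he
      refine ⟨C + e * H, fun _ x hxH hx W hW => (hC x hx W hW).trans ?_⟩
      have : (e : ℝ) * logHeight x ≤ e * H := mul_le_mul_of_nonneg_left hxH (Nat.cast_nonneg e)
      linarith
    · exact ⟨0, fun h => absurd h hg⟩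
  choose C hC using hbound
  obtain ⟨M₀, hM₀⟩ := exists_nat_gt (∑ g ∈ S₀, |C g|)
  obtain ⟨W, hWcard, hWB⟩ := exists_places hL t ht B M₀
  have hred : ∀ w : FinPl k t, w ∈ W → ∃ E : Set ℕ, Good E ∧
      (∀ n, (∀ g ∈ S₀, MvPolynomial.eval (iter F a n) g = 0) → n ∈ E) ∧
      (∀ n ∈ E, ∀ g ∈ S₀, w.1.val (MvPolynomial.eval (iter F a n) g) < 1) ∧
      ∀ n, ∃ i, w.1.val (iter F a n i) = 1 := by
    intro w hw
    have hwB := hWB w hw
    haveI := w.1.finite_resField hL
    exact reduce_at w.1 (h w.1.resField inferInstance) hd F hF q hqF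
      (fun i m => hXring w.1 hwB _ (hXF i m)) (fun i m => hXring w.1 hwB _ (hXq i m)) a
      (fun i => hXring w.1 hwB _ fun _ => hXa i)
      (by
        obtain ⟨i, hi⟩ := Function.ne_iff.1 ha
        exact ⟨i, hB w.1 hwB _ (hXa i) hi⟩)
      (S₀ : Set (MvPolynomial ι L)) (fun g hg => hS g (hS₀S hg))
      (fun g hg m => hXring w.1 hwB _ (hXS g hg m)) Q (fun a b c => ⟨e a b c, hQ1 a b c⟩) hQ2
      (fun a b c m hm => hB w.1 hwB _ (hXQ a b c m hm) hm)
      (fun x hx a b c => hQ3 a b c x ((hS₀iff x).1 hx))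
  choose! E hE1 hE2 hE3 hE4 using hred
  have hset : {n | ∀ g ∈ S, MvPolynomial.eval (iter F a n) g = 0} = ⋂ w ∈ W, E w := by
    ext n
    simp only [Set.mem_ofPred_eq, Set.mem_iInter]
    rw [← hS₀iff]
    constructor
    · intro hn w hw
      exact hE2 w hw n hn
    · intro hn g hg
      by_contra hne
      have h1 := hC g hg (iter F a n) (hH n) hne W
        fun w hw => ⟨hE3 w hw n (hn w hw) g hg, hE4 w hw n⟩
      rw [hWcard] at h1
      have h2 : |C g| ≤ ∑ g ∈ S₀, |C g| :=
        Finset.single_le_sum (f := fun g => |C g|) (fun _ _ => abs_nonneg _) hg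
      have h3 := le_abs_self (C g)
      linarith
  rw [hset]
  exact Good.biInter W E hE1

end Pool.Agent.Helper33.GC
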